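import Pool.Agent.Q72.AL.Stm

/-!
# The average of the diagonal mean square (AL, job BB)
-/

set_option autoImplicit false

open Complex MeasureTheory Filter Topology Set

namespace Pool.Agent.Q176.AL

open Pool.Agent.Q72.AL

theorem bb (h1 : J_WT) (h2 : J_DDB) (h3 : J_DDC) : J_BB := by
  obtain ⟨hw, hwc, -, -⟩ := h1
  obtain ⟨C, hC, hb⟩ := h2
  obtain ⟨-, hAc⟩ := h3 2 (by norm_num) le_rfl
  have hA0 : ∀ v, 0 ≤ AA 2 v := fun v => tsum_nonneg fun n => sq_nonneg _
  have hAC : ∀ v, AA 2 v ≤ C := fun v => (hb 2 v (by norm_num) le_rfl).2.2.2.2.2.1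
  have hAe : ∀ v, v ≤ 0 → AA 2 v ≤ C * Real.exp (2 * v) := fun v =>
    (hb 2 v (by norm_num) le_rfl).2.2.2.2.2.2
  refine ⟨?_, 4 * C, by positivity, ?_, ?_⟩
  · have hm : ∀ τ : ℝ, (0 : ℝ) < max τ 1 := fun τ => lt_of_lt_of_le one_pos (le_max_right _ _)
    have hmc : Continuous fun τ : ℝ => max τ 1 := continuous_id.max continuous_const
    have c1 : Continuous fun τ : ℝ => wt (max τ 1) := hwc.comp_continuous hmc hm
    have c2 : Continuous fun τ : ℝ => Real.log (max τ 1) :=
      hmc.log fun τ => (hm τ).ne'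
    have c3 : Continuous (Function.uncurry fun (w τ : ℝ) =>
        wt (max τ 1) * AA 2 (w + Real.log (max τ 1))) :=
      (c1.comp continuous_snd).mul (hAc.comp (continuous_fst.add (c2.comp continuous_snd)))
    have c4 := intervalIntegral.continuous_parametric_intervalIntegral_of_continuous'
      (μ := volume) c3 1 2
    have c5 : BB = fun z => ∫ τ in (1 : ℝ)..2,
        wt (max τ 1) * AA 2 (Real.log z + Real.log (max τ 1)) := by
      funext z
      unfold BB
      refine intervalIntegral.integral_congr fun τ hτ => ?_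
      rw [uIcc_of_le (by norm_num)] at hτ
      simp only [max_eq_left hτ.1]
    rw [c5]
    exact c4.comp_continuousOn (Real.continuousOn_log.mono fun z (hz : (0 : ℝ) < z) => hz.ne')
  · intro z _
    have h4 := intervalIntegral.norm_integral_le_of_norm_le_const (a := (1 : ℝ)) (b := 2)
      (f := fun τ => wt τ * AA 2 (Real.log z + Real.log τ)) (C := C) (fun τ hτ => by
        rw [uIoc_of_le (by norm_num)] at hτ
        have h5 := hw τ ⟨hτ.1.le, hτ.2⟩
        rw [norm_mul, Real.norm_of_nonneg h5.1, Real.norm_of_nonneg (hA0 _)]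
        calc wt τ * AA 2 (Real.log z + Real.log τ) ≤ 1 * C :=
              mul_le_mul h5.2 (hAC _) (hA0 _) zero_le_one
          _ = C := one_mul _)
    have h6 : |(2 : ℝ) - 1| = 1 := by norm_num
    rw [h6, mul_one, Real.norm_eq_abs] at h4
    unfold BB
    linarith
  · intro z hz hz2
    have h4 := intervalIntegral.norm_integral_le_of_norm_le_const (a := (1 : ℝ)) (b := 2)
      (f := fun τ => wt τ * AA 2 (Real.log z + Real.log τ)) (C := 4 * C * z ^ 2) (fun τ hτ => by
        rw [uIoc_of_le (by norm_num)] at hτ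
        have h5 := hw τ ⟨hτ.1.le, hτ.2⟩
        have hτ0 : 0 < τ := by linarith [hτ.1]
        have h7 : Real.log z + Real.log τ = Real.log (z * τ) := (Real.log_mul hz.ne' hτ0.ne').symm
        have h8 : z * τ ≤ 1 := by nlinarith [hτ.2]
        have h9 : Real.log (z * τ) ≤ 0 := Real.log_nonpos (by positivity) h8
        have h10 := hAe _ h9
        have h11 : Real.exp (2 * Real.log (z * τ)) = (z * τ) ^ 2 := by
          rw [two_mul, Real.exp_add, Real.exp_log (by positivity), sq]
        rw [h11] at h10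
        have h12 : (z * τ) ^ 2 ≤ 4 * z ^ 2 := by
          rw [mul_pow]
          have : τ ^ 2 ≤ 4 := by nlinarith [hτ.1, hτ.2]
          nlinarith [sq_nonneg z]
        rw [norm_mul, Real.norm_of_nonneg h5.1, Real.norm_of_nonneg (hA0 _), h7]
        calc wt τ * AA 2 (Real.log (z * τ)) ≤ 1 * (C * (z * τ) ^ 2) :=
              mul_le_mul h5.2 h10 (hA0 _) zero_le_one
          _ = C * (z * τ) ^ 2 := one_mul _
          _ ≤ C * (4 * z ^ 2) := mul_le_mul_of_nonneg_left h12 hC.le
          _ = 4 * C * z ^ 2 := by ring)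
    have h6 : |(2 : ℝ) - 1| = 1 := by norm_num
    rw [h6, mul_one, Real.norm_eq_abs] at h4
    exact h4

end Pool.Agent.Q176.AL
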